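import Mathlib
import Pool.Agent.H20.Anti

namespace Pool.Agent.Results.MP_233b81_lc.Antichains

/-- the initial segment of length `n` of a sequence -/
def seg (x : ℕ → ℕ) (n : ℕ) : List ℕ := (List.range n).map x

/-- computably bounded `Π⁰₁` classes: the paths through a computable tree bounded by a
computable function -/
def IsCB (P : Set (ℕ → ℕ)) : Prop :=
  ∃ (T : List ℕ → Bool) (g : List ℕ → ℕ), Computable T ∧ Computable g ∧
    (∀ σ τ : List ℕ, σ <+: τ → T τ = true → T σ = true) ∧
    (∀ (σ : List ℕ) (i : ℕ), T (σ ++ [i]) = true → i < g σ) ∧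
    P = {x | ∀ n, T (seg x n) = true}

/-- decompositions of a partial order into `k` antichains -/
def Dec (α : Type) [PartialOrder α] (k : ℕ) : Set (α → Fin k) :=
  {f | ∀ j, IsAntichain (· ≤ ·) (f ⁻¹' {j})}

/-- the partitions underlying the decompositions (decompositions up to renaming the parts) -/
def Part (α : Type) [PartialOrder α] (k : ℕ) : Set (Setoid α) :=
  Setoid.ker '' Dec α k

theorem dec_fin (α : Type) [PartialOrder α] (k : ℕ) :
    (Dec α k).Finite ∨ ¬ (Dec α k).Countable := by
  have hb : Set.BijOn (fun (f : α → Fin k) x => (f x : ℕ)) (Dec α k) (H20.Anti.Dec α k) := by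
    refine ⟨fun f hf => ⟨fun x => (f x).2, fun x y hxy he => ?_⟩, fun f _ g _ h => ?_,
      fun f hf => ⟨fun x => ⟨f x, hf.1 x⟩, fun j x hx y hy hne hle => ?_, rfl⟩⟩
    · exact hf (f x) (rfl : x ∈ f ⁻¹' {f x}) (show y ∈ f ⁻¹' {f x} from (Fin.ext he).symm)
        hxy.ne hxy.le
    · funext x; exact Fin.ext (congrFun h x)
    · have h1 := congrArg Fin.val (show (⟨f x, hf.1 x⟩ : Fin k) = j from hx)
      have h2 := congrArg Fin.val (show (⟨f y, hf.1 y⟩ : Fin k) = j from hy)
      exact hf.2 x y (lt_of_le_of_ne hle hne) (h1.trans h2.symm)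
  rcases H20.Anti.fin_or_unc (α := α) k with h | h
  · left
    rw [← hb.image_eq] at h
    exact Set.Finite.of_finite_image h hb.injOn
  · right
    intro hc
    apply h
    rw [← hb.image_eq]
    exact hc.image _

theorem fib_fin {α : Type} {k : ℕ} (s : Setoid α) :
    {f : α → Fin k | Setoid.ker f = s}.Finite := by
  rcases Set.eq_empty_or_nonempty {f : α → Fin k | Setoid.ker f = s} with h | ⟨f, hf⟩
  · rw [h]; exact Set.finite_empty
  refine (Set.finite_range (fun (p : Fin k → Fin k) => p ∘ f)).subset fun g hg => ?_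
  classical
  refine ⟨fun j => if h : ∃ x, f x = j then g h.choose else j, ?_⟩
  funext x
  have h : ∃ y, f y = f x := ⟨x, rfl⟩
  simp only [Function.comp, dif_pos h]
  have h1 : Setoid.ker f h.choose x := h.choose_spec
  rw [show Setoid.ker f = s from hf, ← show Setoid.ker g = s from hg] at h1
  exact h1

theorem part_fin (α : Type) [PartialOrder α] (k : ℕ) :
    (Part α k).Finite ∨ ¬ (Part α k).Countable := by
  rcases dec_fin α k with h | h
  · exact Or.inl (h.image _)
  · right
    intro hc
    apply h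
    refine (hc.biUnion (fun s _ => (fib_fin (k := k) s).countable)).mono fun f hf => ?_
    simp only [Set.mem_iUnion]
    exact ⟨_, ⟨f, hf, rfl⟩, rfl⟩

def P0 : Set (ℕ → ℕ) := {x | ∀ n, decide ((seg x n).sum ≤ 1) = true}

theorem p0_cb : IsCB P0 := by
  refine ⟨fun σ => decide (σ.sum ≤ 1), fun _ => 2, ?_, Computable.const _, ?_, ?_, rfl⟩
  · have h1 : Primrec (fun σ : List ℕ => σ.sum) := by
      have := Primrec.list_foldr (f := fun σ : List ℕ => σ) (g := fun _ => (0 : ℕ))
        (h := fun _ p => p.1 + p.2) Primrec.id (Primrec.const 0)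
        (Primrec.nat_add.comp (Primrec.fst.comp Primrec.snd) (Primrec.snd.comp Primrec.snd)).to₂
      refine this.of_eq fun σ => ?_
      induction σ with
      | nil => rfl
      | cons a l ih => simp only [List.foldr_cons, List.sum_cons, ih]
    exact (Primrec.nat_le.comp h1 (Primrec.const 1)).decide.to_comp
  · rintro σ _ ⟨t, rfl⟩ h
    simp only [List.sum_append, decide_eq_true_eq] at h ⊢
    omega
  · intro σ i h
    simp only [List.sum_append, decide_eq_true_eq, List.sum_cons, List.sum_nil] at h
    show i < 2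
    omega

theorem seg_sum (x : ℕ → ℕ) (n : ℕ) : (seg x n).sum = ∑ i ∈ Finset.range n, x i := by
  induction n with
  | zero => rfl
  | succ n ih =>
    rw [Finset.sum_range_succ, ← ih]
    simp [seg, List.range_succ]

theorem p0_inf : P0.Infinite := by
  refine Set.infinite_of_injective_forall_mem (f := fun n : ℕ => (Pi.single n 1 : ℕ → ℕ)) ?_ ?_
  · intro a b h
    by_contra hne
    have := congrFun h a
    simp [hne] at this
  · intro m n
    rw [seg_sum]
    simp only [Pi.single_apply, Finset.sum_ite_eq', decide_eq_true_eq]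
    split_ifs <;> omega

theorem p0_cnt : P0.Countable := by
  refine ((Set.countable_range (fun n : ℕ => (Pi.single n 1 : ℕ → ℕ))).insert 0).mono ?_
  intro x hx
  by_cases h0 : x = 0
  · exact Or.inl h0
  right
  obtain ⟨m, hm⟩ := Function.ne_iff.1 h0
  have hle : ∀ s : Finset ℕ, ∑ i ∈ s, x i ≤ 1 := fun s => by
    have h1 := hx (s.sup id + 1)
    rw [seg_sum, decide_eq_true_eq] at h1
    refine le_trans (Finset.sum_le_sum_of_subset fun i hi => ?_) h1
    exact Finset.mem_range.2 (Nat.lt_succ_of_le (Finset.le_sup (f := id) hi))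
  have hm' : x m ≠ 0 := hm
  refine ⟨m, funext fun n => ?_⟩
  by_cases hn : n = m
  · subst hn
    have := hle {n}
    simp at this ⊢
    omega
  · have := hle {n, m}
    rw [Finset.sum_pair hn] at this
    simp [hn]
    omega

theorem no_equiv {β : Type} {D : Set β} (h : D.Finite ∨ ¬ D.Countable) : IsEmpty (P0 ≃ D) := by
  refine ⟨fun e => ?_⟩
  rcases h with h | h
  · have : Finite D := h
    exact p0_inf (Set.finite_coe_iff.1 (Finite.of_equiv _ e.symm))
  · have : Countable P0 := p0_cnt
    exact h (Set.countable_coe_iff.1 (e.symm.injective.countable))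

theorem result :
    (∀ (α : Type) [PartialOrder α] (k : ℕ), (Dec α k).Finite ∨ ¬ (Dec α k).Countable) ∧
    ∃ P : Set (ℕ → ℕ), IsCB P ∧ ∀ (α : Type) [PartialOrder α] (k : ℕ),
      IsEmpty (P ≃ Dec α k) ∧ IsEmpty (P ≃ Part α k) :=
  ⟨dec_fin, P0, p0_cb, fun α _ k => ⟨no_equiv (dec_fin α k), no_equiv (part_fin α k)⟩⟩

end Pool.Agent.Results.MP_233b81_lc.Antichains
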